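import Pool.Agent.H.MP_39f9da_an.A

set_option autoImplicit false

namespace Pool.Agent.Results.MP_39f9da_an.FG

theorem result : ∃ (G : Type) (_ : Group G), Group.FG G ∧ (∀ g : G, g ≠ 1 → ∃ H : Subgroup G, H.FiniteIndex ∧ g ∉ H) ∧
    ∃ X : Set (G → ZMod 2 × ZMod 2), X.Nonempty ∧
    (∃ (S : Finset G) (P : Set (S → ZMod 2 × ZMod 2)), X = {x | ∀ g : G, (fun s : S => x (s.1 * g)) ∈ P}) ∧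
    (∃ Δ : Finset G, ∀ Ω₁ Ω₂ : Set G, (∀ d ∈ Δ, ∀ w ∈ Ω₁, d * w ∉ Ω₂) →
      ∀ x₁ ∈ X, ∀ x₂ ∈ X, ∃ z ∈ X, (∀ w ∈ Ω₁, z w = x₁ w) ∧ (∀ w ∈ Ω₂, z w = x₂ w)) ∧
    ∀ y ∈ X, ¬ (Set.range fun g h : G => y (h * g)).Finite :=
  Pool.Agent.H.MP_39f9da_an.main

end Pool.Agent.Results.MP_39f9da_an.FG
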